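import Mathlib
import Pool.Agent.Helper91.T4

/-!
# Spectral variation for normal matrices with spectra on crossing segments

Let `A`, `B` be normal `n × n` matrices whose spectra lie on crossing segments.  Then
`sd(A,B) ≤ ‖A - B‖`.  (The proof only uses that the spectra lie on two non-parallel lines.)

Idea of the proof.  Let `z₀` be the crossing point, `A = z₀ + u H`, `B = z₀ + v K` with `H`, `K`
Hermitian and `u`, `v` unimodular, and let `S = A - B = u H - v K`, `‖S‖ < ρ`.

* Caps theorem.  If `S = X + i Y` is a strict contraction then `1 + X ≥ Y (1 - X)⁻¹ Y`.  From this,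
  for every `ω` on the circle of radius `ρ`, there are points `z₁, …, zₙ` of this circle, positive
  weights `Wⱼ` and an invertible matrix `C` such that for all `w` and real `c` with `Re (w̄ ω) ≤ c`
  and all `x`, `∑ⱼ Wⱼ |(C x)ⱼ|² (c - Re (w̄ zⱼ)) ≤ c ‖x‖² - Re (w̄ ⟪x, S x⟫)` (that is, `S` has a
  normal dilation with spectrum `{z₁, …, zₙ, ω}`).  Counting dimensions, if the four
  half planes `a₁ ≤ h`, `h ≤ a₂`, `b₁ ≤ k`, `k ≤ b₂` (in the real coordinates `z = u h - v k`) have
  pairwise disjoint traces on the circle, not containing `ω`, then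
  `#{λ(H) ≥ a₁} + #{λ(H) ≤ a₂} + #{λ(K) ≥ b₁} + #{λ(K) ≤ b₂} ≤ n`.
* Hall's theorem.  For `a ∈ σ(H)`, `b ∈ σ(K)` one has `|u a - v b| ≤ ρ` iff the corresponding chords
  of the circle meet in the disc.  A set of eigenvalues of `H` violating Hall's condition would
  contradict the inequality above.
-/

set_option autoImplicit false

namespace Pool.Agent.Results.MP_16c41e_an.CrossingSegments

/-- The operator norm (the largest singular value) of a complex matrix: its norm as a bounded
operator on the Euclidean space `ℂⁿ`. -/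
noncomputable def opNorm {n : ℕ} (M : Matrix (Fin n) (Fin n) ℂ) : ℝ :=
  ‖Matrix.toEuclideanCLM (n := Fin n) (𝕜 := ℂ) M‖

/-- `α₁, …, αₙ` are the eigenvalues of `A`, listed with multiplicity. -/
def EigenvalueList {n : ℕ} (A : Matrix (Fin n) (Fin n) ℂ) (α : Fin n → ℂ) : Prop :=
  A.charpoly.roots = (Finset.univ : Finset (Fin n)).val.map α

/-- The spectral distance `min_σ max_k |α_k - β_σ(k)|` of two eigenvalue lists. -/
noncomputable def spectralDistance {n : ℕ} (α β : Fin n → ℂ) : ℝ :=
  ⨅ σ : Equiv.Perm (Fin n), ⨆ k : Fin n, ‖α k - β (σ k)‖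

/-- The segments `[p, q]` and `[r, s]` cross: they are not parallel and meet in a single point,
which lies in the relative interior of each. -/
def Cross (p q r s : ℂ) : Prop :=
  LinearIndependent ℝ ![q - p, s - r] ∧
    ∃ z : ℂ, segment ℝ p q ∩ segment ℝ r s = {z} ∧ z ∈ openSegment ℝ p q ∧ z ∈ openSegment ℝ r s

/-- **Theorem.** Normal matrices with spectra on crossing segments satisfy
`sd(A,B) ≤ ‖A - B‖`. -/
theorem result (n : ℕ) (A B : Matrix (Fin n) (Fin n) ℂ) (hA : IsStarNormal A)
    (hB : IsStarNormal B) (p q r s : ℂ) (hcross : Cross p q r s)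
    (hpq : spectrum ℂ A ⊆ segment ℝ p q) (hrs : spectrum ℂ B ⊆ segment ℝ r s)
    (α β : Fin n → ℂ) (hα : EigenvalueList A α) (hβ : EigenvalueList B β) :
    spectralDistance α β ≤ opNorm (A - B) := by
  obtain ⟨hli, z0, -, hz1, hz2⟩ := hcross
  -- directions
  have hne := hli.ne_zero
  have hu0 : q - p ≠ 0 := by simpa using hne 0
  have hv0 : s - r ≠ 0 := by simpa using hne 1
  have hnu : (‖q - p‖ : ℂ) ≠ 0 := by exact_mod_cast norm_ne_zero_iff.mpr hu0
  have hnv : (‖s - r‖ : ℂ) ≠ 0 := by exact_mod_cast norm_ne_zero_iff.mpr hv0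
  set u : ℂ := (q - p) / (‖q - p‖ : ℂ) with hu
  set v : ℂ := (s - r) / (‖s - r‖ : ℂ) with hv
  have hu1 : ‖u‖ = 1 := by
    rw [hu, norm_div, Complex.norm_real, norm_norm, div_self (norm_ne_zero_iff.mpr hu0)]
  have hv1 : ‖v‖ = 1 := by
    rw [hv, norm_div, Complex.norm_real, norm_norm, div_self (norm_ne_zero_iff.mpr hv0)]
  have hqu : q - p = (‖q - p‖ : ℂ) * u := by
    rw [hu, mul_div_cancel₀ _ hnu]
  have hsv : s - r = (‖s - r‖ : ℂ) * v := by
    rw [hv, mul_div_cancel₀ _ hnv]
  have hseg : ∀ a b w : ℂ, ∀ x ∈ segment ℝ a b, ∀ y ∈ segment ℝ a b,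
      (b - a = (‖b - a‖ : ℂ) * w) → ∃ t : ℝ, x = y + t * w := by
    intro a b w x hx y hy hab
    rw [segment_eq_image] at hx hy
    obtain ⟨t, -, rfl⟩ := hx
    obtain ⟨t', -, rfl⟩ := hy
    refine ⟨(t - t') * ‖b - a‖, ?_⟩
    simp only [Complex.real_smul]
    push_cast
    linear_combination (t - t' : ℂ) * hab
  have hD : (star v * u).im ≠ 0 := by
    intro h
    -- then `q - p` is a real multiple of `s - r`
    have hvv : v * star v = 1 := by
      rw [mul_comm, RCLike.star_def, ← Complex.normSq_eq_conj_mul_self,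
        Complex.normSq_eq_norm_sq, hv1]
      simp
    have h1 : star v * u = ((star v * u).re : ℂ) := by
      apply Complex.ext
      · simp
      · rw [h]; simp
    have h2 : u = ((star v * u).re : ℂ) * v := by
      rw [← h1]
      linear_combination (-u) * hvv
    have h3 : (‖s - r‖ : ℝ) • (q - p) + (-(‖q - p‖ * (star v * u).re) : ℝ) • (s - r) = 0 := by
      simp only [Complex.real_smul]
      push_cast
      have h4 : q - p = (‖q - p‖ : ℂ) * (((star v * u).re : ℂ) * v) := by
        rw [← h2]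
        exact hqu
      linear_combination (‖s - r‖ : ℂ) * h4 - ((‖q - p‖ : ℂ) * ((star v * u).re : ℂ)) * hsv
    have h5 := (LinearIndependent.pair_iff.mp hli) _ _ h3
    exact (norm_ne_zero_iff.mpr hv0) h5.1
  have hz1' := openSegment_subset_segment ℝ p q hz1
  have hz2' := openSegment_subset_segment ℝ r s hz2
  have hopn : 0 ≤ opNorm (A - B) := norm_nonneg _
  refine le_of_forall_gt_imp_ge_of_dense (fun ρ hρ => ?_)
  obtain ⟨σ, hσ⟩ := Pool.Agent.Helper91.Spec.spectral_lines A B hA hB z0 u v hu1 hv1 hD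
    (fun z hz => hseg p q u z (hpq hz) z0 hz1' hqu)
    (fun z hz => hseg r s v z (hrs hz) z0 hz2' hsv) α β hα hβ ρ hρ
  refine (ciInf_le (Set.finite_range _).bddBelow σ).trans ?_
  exact Real.iSup_le (fun k => hσ k) (hopn.trans hρ.le)

end Pool.Agent.Results.MP_16c41e_an.CrossingSegments
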